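import Pool.Agent.Helper13.Equiv.Family
import Pool.Agent.Helper13.Equiv.Gauss

/-!
# Equivariant bounds for the Jordan blocks of Frobenius on the second cohomology of a surface

`EquivH2 p E L V ι` lists properties of the Frobenius endomorphism `F` of
`V = H²(X̄, L(1))`, `L = \bar ℚ_ℓ`, of a smooth projective surface over a finite field of
characteristic `p`, together with a family of correspondences `T i` commuting with `F`.
-/

open Polynomial Module NumberField IsDedekindDomain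

namespace Pool.Agent.Results.MP_1fe969_ag.EquivariantBlocks

open Pool.Agent.Helper13.Equiv

/-- Frobenius and a family of correspondences on `V = H²(X̄, L(1))`. -/
structure EquivH2 (p : ℕ) (E L V ι : Type) [Field E] [NumberField E] [Field L] [Algebra E L]
    [AddCommGroup V] [Module L V] [FiniteDimensional L V] where
  /-- the cup product pairing -/
  B : LinearMap.BilinForm L V
  nondeg : B.Nondegenerate
  symm : ∀ x y, B x y = B y x
  /-- the Frobenius -/
  F : End L V
  isometry : ∀ x y, B (F x) (F y) = B x y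
  /-- correspondences; `s i` is the index of the transpose of `T i` -/
  T : ι → End L V
  comm : ∀ i x, T i (F x) = F (T i x)
  s : ι → ι
  invol : ∀ i, s (s i) = i
  adj : ∀ i x y, B (T i x) y = B x (T (s i) y)
  /-- `V` is the sum of the common eigenspaces, with eigenvalues in `E` -/
  span : ⨆ χ : ι → E, joint T (fun i => algebraMap E L (χ i)) = ⊤
  /-- a subspace on which `F` is known to be semisimple, such as `NS ⊗ L` -/
  N : Submodule L V
  N_T : ∀ i, ∀ x ∈ N, T i x ∈ N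
  N_F : ∀ x ∈ N, F x ∈ N
  N_nondeg : (B.restrict N).Nondegenerate
  N_semisimple : End.IsSemisimple (F.restrict N_F)
  /-- a polynomial over `E` killing `F` on the part of the complement of `N` in the common
  eigenspace of `χ`, such as the characteristic polynomial -/
  P : (ι → E) → E[X]
  P_monic : ∀ χ, (P χ).Monic
  P_kills : ∀ χ, ∀ x ∈ joint T (fun i => algebraMap E L (χ i)) ⊓ B.orthogonal N,
    aeval F ((P χ).map (algebraMap E L)) x = 0
  /-- the Weil conjectures -/
  weil : ∀ χ (φ : E →+* ℂ) (z : ℂ), ((P χ).map φ).eval z = 0 → ‖z‖ = 1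
  /-- the coefficients are integral outside `p` -/
  integral : ∀ χ i, ∃ D : ℕ, IsIntegral ℤ ((p : E) ^ D * (P χ).coeff i)

section

variable {p : ℕ} {E L V ι : Type} [Field E] [NumberField E] [Field L] [Algebra E L]
    [AddCommGroup V] [Module L V] [FiniteDimensional L V]

/-- the common eigenspace of the correspondences for `χ` -/
def EquivH2.eigen (H : EquivH2 p E L V ι) (χ : ι → E) : Submodule L V :=
  joint H.T (fun i => algebraMap E L (χ i))

/-- `w(χ, α)`: the dimension of the generalised eigenspace of `F` for `α` in the eigenspace of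
`χ` and the complement of `N` -/
noncomputable def EquivH2.w (H : EquivH2 p E L V ι) (χ : ι → E) (α : L) : ℕ :=
  finrank L ↥((H.eigen χ ⊓ H.B.orthogonal H.N) ⊓ H.F.maxGenEigenspace α)

/-- at every place `v` of `E` over `p`: `b` bounds the multiplicities of the non-integral factors
of `P χ` over `E_v`, or the denominator exponent, or the number of roots of negative valuation -/
def EquivH2.Bound (H : EquivH2 p E L V ι) (χ : ι → E) (b : ℕ) : Prop :=
  ∀ v : HeightOneSpectrum (𝓞 E), (p : 𝓞 E) ∈ v.asIdeal →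
    MultAt (H.P χ) b v ∨ DenomAt (H.P χ) b v ∨ SlopesAt (H.P χ) b v

end

theorem result (p : ℕ) {E L V ι : Type} [Field E] [NumberField E] [Field L] [CharZero L]
    [Algebra E L] [IsAlgClosed L] [AddCommGroup V] [Module L V] [FiniteDimensional L V]
    (H : EquivH2 p E L V ι) :
    -- Jordan blocks at eigenvalues that are not roots of unity
    (∀ (χ : ι → E) (b : ℕ), H.Bound χ b → ∀ α : L, (∀ n : ℕ, 0 < n → α ^ n ≠ 1) →
      ∀ x ∈ H.eigen χ, ∀ n : ℕ, ((H.F - α • 1) ^ n) x = 0 →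
        ((H.F - α • 1) ^ (max b 1)) x = 0) ∧
    -- all Jordan blocks
    (∀ (χ : ι → E) (α : L), ∀ x ∈ H.eigen χ, ∀ n : ℕ, ((H.F - α • 1) ^ n) x = 0 →
      ((H.F - α • 1) ^ (max (H.w χ α) 1)) x = 0 ∧
      ((∀ i, χ (H.s i) = χ i) → α ^ 2 = 1 →
        ((H.F - α • 1) ^ (2 * ((H.w χ α - 1) / 2) + 1)) x = 0)) ∧
    -- semisimplicity
    ((∀ χ, H.Bound χ 1) →
      (∀ (χ : ι → E) (ζ : L), (∃ n : ℕ, 0 < n ∧ ζ ^ n = 1) →
        H.w χ ζ ≤ 1 ∨ ((∀ i, χ (H.s i) = χ i) ∧ ζ ^ 2 = 1 ∧ H.w χ ζ ≤ 2)) →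
      H.F.IsSemisimple) := by
  have hrefl : H.B.IsRefl := fun a b hab => by rw [H.symm]; exact hab
  have hNc : IsCompl H.N (H.B.orthogonal H.N) :=
    H.B.isCompl_orthogonal_of_restrict_nondegenerate hrefl H.N_nondeg
  have hperp : ∀ i, ∀ x ∈ H.B.orthogonal H.N, H.T i x ∈ H.B.orthogonal H.N :=
    perp_stable H.invol H.adj H.N_T
  have hFperp : ∀ x ∈ H.B.orthogonal H.N, H.F x ∈ H.B.orthogonal H.N :=
    F_perp H.nondeg H.isometry H.N_F
  have hFeig : ∀ χ, ∀ x ∈ H.eigen χ, H.F x ∈ H.eigen χ := fun χ =>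
    joint_stable H.comm _
  have hFW : ∀ χ, ∀ x ∈ H.eigen χ ⊓ H.B.orthogonal H.N, H.F x ∈ H.eigen χ ⊓ H.B.orthogonal H.N :=
    fun χ x hx => ⟨hFeig χ x hx.1, hFperp x hx.2⟩
  -- reduction to the complement of `N`
  have red : ∀ (χ : ι → E) (α : L) (m : ℕ), 0 < m →
      (∀ x ∈ H.eigen χ ⊓ H.B.orthogonal H.N, (∃ n : ℕ, ((H.F - α • 1) ^ n) x = 0) →
        ((H.F - α • 1) ^ m) x = 0) →
      ∀ x ∈ H.eigen χ, ∀ n : ℕ, ((H.F - α • 1) ^ n) x = 0 → ((H.F - α • 1) ^ m) x = 0 := by
    intro χ α m hm hW x hx n hn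
    obtain ⟨a, b, ha, hb, rfl⟩ := joint_split hNc H.N_T hperp hx
    obtain ⟨h1, h2⟩ := split hNc (T := (H.F - α • 1) ^ n) (sub_pow_mem H.N_F α n)
      (sub_pow_mem hFperp α n) ha.2 hb.2 hn
    have h3 : (H.F - α • 1) a = 0 := trivial_on H.N_F H.N_semisimple ha.2 h1
    rw [map_add, hW b hb ⟨n, h2⟩, add_zero]
    exact pow_mono hm (by rw [pow_one]; exact h3)
  have part1 : ∀ (χ : ι → E) (b : ℕ), H.Bound χ b → ∀ α : L, (∀ n : ℕ, 0 < n → α ^ n ≠ 1) →
      ∀ x ∈ H.eigen χ, ∀ n : ℕ, ((H.F - α • 1) ^ n) x = 0 →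
        ((H.F - α • 1) ^ (max b 1)) x = 0 := by
    intro χ b hb α hα
    apply red χ α (max b 1) (by omega)
    rintro x hx ⟨n, hn⟩
    have h1 := rootMultiplicity_le (H.P_monic χ) (H.weil χ) (H.integral χ) hb hα
    have h2 := blk_le ((H.P_monic χ).map (algebraMap E L)).ne_zero (H.P_kills χ x hx) hn
    exact pow_mono (h1.trans (le_max_left _ _)) h2
  have part2 : ∀ (χ : ι → E) (α : L), ∀ x ∈ H.eigen χ, ∀ n : ℕ, ((H.F - α • 1) ^ n) x = 0 →
      ((H.F - α • 1) ^ (max (H.w χ α) 1)) x = 0 ∧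
      ((∀ i, χ (H.s i) = χ i) → α ^ 2 = 1 →
        ((H.F - α • 1) ^ (2 * ((H.w χ α - 1) / 2) + 1)) x = 0) := by
    intro χ α x hx n hn
    refine ⟨red χ α _ (by omega) ?_ x hx n hn, fun hχ hα => red χ α _ (by omega) ?_ x hx n hn⟩
    · rintro y hy ⟨m, hm⟩
      exact pow_mono (le_max_left _ _) (dim_le (hFW χ) hy hm)
    · rintro y hy ⟨m, hm⟩
      have hnd := nondeg_joint H.nondeg H.symm H.invol H.adj
        (fun (ψ : ι → E) i => algebraMap E L (ψ i)) H.span H.N_T H.N_nondeg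
        (χ := fun i => algebraMap E L (χ i)) (fun i => by rw [hχ i])
      exact odd_le two_ne_zero H.symm H.isometry (hFW χ) hnd hα hy hm
  refine ⟨part1, part2, ?_⟩
  intro hb hw
  apply semisimple_of_span (fun χ : ι → E => H.eigen χ) hFeig H.span
  intro χ x hx α h
  have h2 : (((H.F - α • 1 : End L V)) ^ 2 : End L V) x = 0 := by
    rw [pow_two, End.mul_apply]; exact h
  by_cases hα : ∀ n : ℕ, 0 < n → α ^ n ≠ 1
  · have := part1 χ 1 (hb χ) α hα x hx 2 h2
    rwa [max_self, pow_one] at this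
  · push Not at hα
    obtain ⟨h3, h4⟩ := part2 χ α x hx 2 h2
    rcases hw χ α hα with h5 | ⟨h5, h6, h7⟩
    · rwa [max_eq_right h5, pow_one] at h3
    · have h8 := h4 h5 h6
      have h9 : 2 * ((H.w χ α - 1) / 2) + 1 = 1 := by omega
      rwa [h9, pow_one] at h8

end Pool.Agent.Results.MP_1fe969_ag.EquivariantBlocks
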