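import Pool.Agent.Helper13.HP.P9

/-!
# The section conjecture for 100 percent of the superelliptic curves over rational function fields

Let `F` be a finitely generated field of characteristic zero and `k = F(t₁, …, t_r)`, `r ≥ 2`, a
rational function field in at least two variables.  Let `d ≥ 3` and `m ≥ 1` be integers.

Consider the polynomials `f = ∑_{i ≤ d} a_i x^i` whose coefficients `a_i` are polynomials of degree at most
`m` in `t₁, …, t_r` with integral coefficients of absolute value at most `H`.  For all but
`C (2H + 1) ^ (N - 1)` of these `(2H + 1) ^ N` polynomials `f`: `f` is separable of degree `d`, and for all `n ≥ 2`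
which do not divide `m` every Galois section of the superelliptic curve `yⁿ = f(x)` over `k` is geometric: it
comes from a rational point.
-/

universe u

namespace Pool.Agent.Results.MP_e66f84_ag.HundredPercentCurves

open Polynomial Pool.Agent.Helper91.Sect Pool.Agent.SC

/-- The exponents of the monomials of degree at most `m` in `r` variables. -/
abbrev Exponents (r m : ℕ) : Type := {p : Fin r → Fin (m + 1) // ∑ i, (p i : ℕ) ≤ m}

/-- The value at `t` of the polynomial with coefficients `a`. -/
noncomputable def value {k : Type u} [Field k] {r m : ℕ} (t : Fin r → k)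
    (a : Exponents r m → ℤ) : k :=
  ∑ p : Exponents r m, (a p : k) * ∏ i, t i ^ (p.1 i : ℕ)

/-- The polynomial `∑_{i ≤ d} a_i(t) x^i`. -/
noncomputable def curve {k : Type u} [Field k] {r m d : ℕ} (t : Fin r → k)
    (a : Fin (d + 1) × Exponents r m → ℤ) : k[X] :=
  ∑ i : Fin (d + 1), C (value t fun p => a (i, p)) * X ^ (i : ℕ)

/-- The polynomial `f` is separable of degree `d`, and for all `n ≥ 2` which do not divide `m` the
curve `yⁿ = f(x)` satisfies the section conjecture: if `K` is its function field, every Galois section
of `K / k` is geometric. -/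
def SatisfiesSC {k : Type u} [Field k] (m d : ℕ) (f : k[X]) : Prop :=
  f.natDegree = d ∧ f.Separable ∧ ∀ n : ℕ, 2 ≤ n → ¬ n ∣ m →
    ∀ (K : Type u) [Field K] [Algebra k K] (x y : K), Transcendental k x →
    IntermediateField.adjoin k {x, y} = ⊤ → y ^ n = aeval x f →
    ∀ s : GaloisSection k K, IsGeometric s

/-- **The section conjecture for 100 percent of the superelliptic curves.** -/
theorem result {F k : Type u} [Field F] [CharZero F] [Field k] [Algebra F k]
    -- `F` is finitely generated, and `k = F(t₁, …, t_r)` with at least two variables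
    (hF : ∃ S : Finset F, Subfield.closure (S : Set F) = ⊤) {r : ℕ} (hr : 2 ≤ r)
    {t : Fin r → k} (ht : AlgebraicIndependent F t)
    (htop : IntermediateField.adjoin F (Set.range t) = ⊤)
    {d m : ℕ} (hd : 3 ≤ d) (hm : 1 ≤ m) :
    ∃ C : ℕ, ∀ H : ℕ,
      {a : Fin (d + 1) × Exponents r m → ℤ | (∀ i, |a i| ≤ H) ∧
        ¬ SatisfiesSC m d (curve t a)}.ncard ≤
        C * (2 * H + 1) ^ (Fintype.card (Fin (d + 1) × Exponents r m) - 1) := by
  obtain ⟨r, rfl⟩ := Nat.exists_eq_add_of_le' hr
  exact Pool.Agent.HP.superelliptic_percent hF ht htop hd hm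

end Pool.Agent.Results.MP_e66f84_ag.HundredPercentCurves
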