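import Pool.Agent.Helper13.M.All
import Pool.Agent.Helper45.L.Conv

/-!
# The section conjecture for almost all quadratic twists of a curve

Let `k` be a number field and `X → Y` a double cover of curves over `k`, given by the function field
`K₀` of `Y` and `h ∈ K₀`: `X` is the curve `y² = h`, geometrically irreducible and of genus at least
one.  Its quadratic twists are the curves `y² = c h`, `c ∈ k*/k*²`, ordered by the norm of the
product of the primes `v` of `k` with `v(c)` odd.  The branch points are the points of `Y` at which
the order of `h` is odd.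

* If no branch point is rational then for 100 percent of the `c` the twist `y² = c h`, and every curve
  over `k` which maps onto it, has no Galois section.  The proportion of the exceptions with norm at
  most `X` is at most `C / (log X) ^ η`.
* If some branch point is rational then all twists have a section (that of the branch point).

There are no conditions on `k`, on `Y`, on the number and on the Galois action of the branch points.
-/

set_option autoImplicit false

namespace Pool.Agent.Results.MP_e66f84_ag.QuadraticTwists

open NumberField IsDedekindDomain VC Pool.Agent.Helper91.Sect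

/-- `v(c)` is odd: the value of `c` is not the square of the value of an element. -/
def IsOdd {k : Type} [Field k] [NumberField k] (v : HeightOneSpectrum (𝓞 k)) (c : k) : Prop :=
  ∀ d : k, v.valuation k c ≠ v.valuation k d ^ 2

open scoped Classical in
/-- The norm of the product of the primes `v` of `k` with `v(c)` odd. -/
noncomputable def cond {k : Type} [Field k] [NumberField k] (c : k) : ℕ :=
  ∏ᶠ v : HeightOneSpectrum (𝓞 k), if IsOdd v c then Ideal.absNorm v.asIdeal else 1

/-- The group `k*/k*²`. -/
abbrev Cls (k : Type) [Field k] : Type := kˣ ⧸ (powMonoidHom 2 : kˣ →* kˣ).range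

/-- The classes `c ∈ k*/k*²` with `cond c ≤ X`. -/
def twists (k : Type) [Field k] [NumberField k] (X : ℕ) : Set (Cls k) :=
  {C | ∃ c : kˣ, (c : Cls k) = C ∧ cond (c : k) ≤ X}

/-- The elements of `K₀` and the elements algebraic over `k`, in the algebraic closure of `K₀`: they
generate the function field of `Y` over the algebraic closure of `k`. -/
def base (k K₀ : Type) [Field k] [Field K₀] [Algebra k K₀] : Set (AlgebraicClosure K₀) :=
  {z | IsAlgebraic k z} ∪ Set.range (algebraMap K₀ (AlgebraicClosure K₀))

/-- `K₀/k` is a function field of one variable, and the double cover `y² = h` is irreducible over the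
algebraic closure of `k` and not rational over it. -/
structure IsDoubleCover (k : Type) {K₀ : Type} [Field k] [Field K₀] [Algebra k K₀] (h : K₀) :
    Prop where
  ff : IsFunctionField k K₀
  irr : ∀ r : AlgebraicClosure K₀, r ^ 2 = algebraMap K₀ (AlgebraicClosure K₀) h →
    r ∉ Subfield.closure (base k K₀)
  nonrat : ∀ r : AlgebraicClosure K₀, r ^ 2 = algebraMap K₀ (AlgebraicClosure K₀) h →
    ∀ y : AlgebraicClosure K₀,
      Subfield.closure (base k K₀ ∪ {r}) ≠ Subfield.closure ({z | IsAlgebraic k z} ∪ {y})

/-- `P` is a branch point of `y² = h`: a valuation ring of `K₀` containing `k` at which `h` has odd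
value. -/
structure IsBranch (k : Type) {K₀ : Type} [Field k] [Field K₀] [Algebra k K₀] (h : K₀)
    (P : ValuationSubring K₀) : Prop where
  const : ∀ a : k, algebraMap k K₀ a ∈ P
  odd : ∀ z : K₀, P.valuation h ≠ P.valuation z ^ 2

/-- The residue field of `P` is `k`. -/
def IsRational (k : Type) {K₀ : Type} [Field k] [Field K₀] [Algebra k K₀]
    (P : ValuationSubring K₀) : Prop :=
  ∀ x ∈ P, ∃ a : k, P.valuation (x - algebraMap k K₀ a) < 1

/-- Some curve over `k` which maps onto the curve `y² = c h` has a Galois section: there are an
extension `K` of `K₀` and `y ∈ K` with `y² = c h` such that `K/k` has a Galois section (`K` may be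
any field; the curve itself is `K = K₀(y)`). -/
def HasSection {k K₀ : Type} [Field k] [Field K₀] [Algebra k K₀] (h : K₀) (c : k) : Prop :=
  ∃ (K : Type) (_ : Field K) (_ : Algebra k K) (_ : Algebra K₀ K) (_ : IsScalarTower k K₀ K)
    (y : K), y ^ 2 = algebraMap k K c * algebraMap K₀ K h ∧ Nonempty (GaloisSection k K)

/-- The classes of twists with `cond ≤ X` for which the twist, or some curve over `k` which maps onto
it, has a section. -/
def twistsWithSection (k : Type) {K₀ : Type} [Field k] [NumberField k] [Field K₀] [Algebra k K₀]
    (h : K₀) (X : ℕ) : Set (Cls k) :=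
  {C | ∃ c : kˣ, (c : Cls k) = C ∧ cond (c : k) ≤ X ∧ HasSection h (c : k)}

theorem goodCurve {k K₀ : Type} [Field k] [Field K₀] [Algebra k K₀] {h : K₀}
    (H : IsDoubleCover k h) : Pool.Agent.L.GoodCurve k h :=
  ⟨H.ff, H.irr, H.nonrat⟩

theorem result {k K₀ : Type} [Field k] [NumberField k] [Field K₀] [Algebra k K₀] (h : K₀)
    (H : IsDoubleCover k h) :
    (∀ X : ℕ, (twists k X).Finite) ∧
    -- no branch point is rational: almost no twist has a section
    ((∀ P : ValuationSubring K₀, IsBranch k h P → ¬ IsRational k P) →
      ∃ η C : ℝ, 0 < η ∧ 0 < C ∧ ∀ X : ℕ, 3 ≤ X →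
        (Nat.card (twistsWithSection k h X) : ℝ) ≤ C * Nat.card (twists k X) / Real.log X ^ η) ∧
    -- some branch point is rational: all twists have a section
    ((∃ P : ValuationSubring K₀, IsBranch k h P ∧ IsRational k P) → ∀ c : k, c ≠ 0 →
      ∃ (K : Type) (_ : Field K) (_ : Algebra k K) (_ : Algebra K₀ K) (_ : IsScalarTower k K₀ K)
        (y : K), y ^ 2 = algebraMap k K c * algebraMap K₀ K h ∧
        IntermediateField.adjoin K₀ {y} = ⊤ ∧ Nonempty (GaloisSection k K)) := by
  refine ⟨Pool.Agent.HG.clsLE_finite Pool.Agent.HG.sel, fun hrat => ?_, fun hP c hc => ?_⟩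
  · refine (Pool.Agent.HG.ratioRP Pool.Agent.HG.sel k (fun c => HasSection h c)
      (Pool.Agent.M.finM k K₀ h (goodCurve H) fun P hP hodd => ?_)).2
    have h3 := hrat P ⟨hP, hodd⟩
    unfold IsRational at h3
    push Not at h3
    obtain ⟨x, hx, h4⟩ := h3
    refine ⟨x, hx, fun a ha => ?_⟩
    exact absurd (P.mem_nonunits_iff.1 ha) (not_lt.2 (h4 a))
  · obtain ⟨P, h1, h2⟩ := hP
    exact Pool.Agent.L.conv h P h1.const h1.odd h2 c hc

end Pool.Agent.Results.MP_e66f84_ag.QuadraticTwists
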