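import Pool.Agent.SC.Family

/-!
# The section conjecture for twists of constant curves

`F` is a field finitely generated over `ℚ` and `k` is an extension of `F`.  We consider the curves
`X` over `k` which are twisted forms of constant curves: over the algebraic closure `kbar` of `k`
the curve `X` becomes the base change of a curve `Y` over the algebraic closure `E` of `F` in
`kbar`, and the Galois descent datum comes from automorphisms of `Y`.  In terms of function
fields: `K` is the function field of `X`, and the function field `M` of `Y` is a subfield of
an algebraic closure of `K` with `kbar M = kbar K` which is preserved by all automorphisms over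
`K` (this last condition is automatic if the genus is at least two).

We assume that the genus of `X` is at least one (`M` is not rational) and that `X` is not constant
over `k E`: some automorphism over `K` which is the identity on `E` moves an element of `M`.

Let `Λ` be the splitting field: the subfield of `kbar` of the elements fixed by all automorphisms
over `K` which are the identity on `M`.  We assume that `Λ` has no nontrivial extension in `kbar`
which is unramified and in which the places ramified in `Λ / k` split completely
(`IsSplitClosed`).  This is true for instance if `k = F(t)` and `Λ = E(u)` for some `u`, and we
state this case explicitly (`IsRationalCase`).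

Then every Galois section of `X` is geometric: the image of the section stabilises a
valuation ring `V` of the maximal unramified extension `Kur` of `K` (a point of the
universal cover of `X`), and `V` lies over a `k`-rational place of `K` (a `k`-rational point of
`X`).

As an illustration we prove below (`family`) that the theorem applies to the curves `t yⁿ = g`
over `k = F(t)`, where `g` is a function on any curve `C` over `F`, if `g` is not an `n`-th power
over `E` and the curve `wⁿ = g` over `E` is not rational.  If `g` has a zero or a pole of order prime
to `n` at an `F`-rational point of `C` then such a curve has a `k`-rational point.  A second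
illustration (`henselian`): if `Gal(kbar / k)` is the decomposition group of a place over `F`, for
instance if `k = F((t))`, then all Galois sections of all ramified twists are geometric.

The blocks of the proof are in `Pool/Agent/SC` (helper8, helper11, helper16, helper17, helper20,
helper27, helper37, helper40, helper45, helper48, helper51, helper80, helper91, helper98).
-/

universe u

namespace Pool.Agent.Results.MP_e66f84_ag.TwistedConstantCurves

open VC Pool.Agent.Helper91.Sect Pool.Agent.SC

theorem result {F k K : Type u} [Field F] [CharZero F] [Field k] [Field K]
    [Algebra F k] [Algebra k K] [Algebra F K] [IsScalarTower F k K]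
    -- `F` is finitely generated over the rational numbers
    (hF : ∃ S : Finset F, Subfield.closure (S : Set F) = ⊤)
    -- `K` is the function field of a curve `X` over `k`
    (hK : IsFunctionField k K)
    -- `M` is the function field of a curve `Y` over the algebraic closure of `F`, not rational
    (M : Subfield (AlgebraicClosure K)) (hM : CurveOverE F K M) (hgenus : NotRational F K M)
    -- `X` is a nonconstant twisted form of `Y`
    (hT : TwistedForm k K M) (hnc : NotConstant F K M)
    -- the condition on the splitting field
    (hΛ : IsSplitClosed F k {z : kbar k K | (z : AlgebraicClosure K) ∈ splittingField k M} ∨
      IsRationalCase F k {z : kbar k K | (z : AlgebraicClosure K) ∈ splittingField k M})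
    -- a Galois section
    (s : GaloisSection k K) : IsGeometric s :=
  isGeometric_of_twist hF hK M hM hgenus hT hnc hΛ s

/-- Illustration: the curves `t yⁿ = g` over `k = F(t)`; `K1` is the function field of a curve
over `F`, `g` is an element of `K1`, and `K = k K1(y)`. -/
theorem family {F k K : Type u} [Field F] [CharZero F] [Field k] [Field K]
    [Algebra F k] [Algebra k K] [Algebra F K] [IsScalarTower F k K]
    (hF : ∃ S : Finset F, Subfield.closure (S : Set F) = ⊤)
    -- `k = F(t)`
    (t : k) (ht : Transcendental F t) (htop : IntermediateField.adjoin F {t} = ⊤)
    -- `K1` is the function field of a curve over `F`, and `t` is transcendental over `K1`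
    (K1 : IntermediateField F K) (hK1 : IsFunctionField F K1)
    (ht1 : Transcendental K1 (algebraMap k K t))
    -- `K` is generated by `k`, `K1` and `y`, with `t yⁿ = g`
    (n : ℕ) (hn : 0 < n) (y g : K) (hg : g ∈ K1) (hg0 : g ≠ 0)
    (hy : algebraMap k K t * y ^ n = g)
    (hgen : IntermediateField.adjoin k ((K1 : Set K) ∪ {y}) = ⊤)
    -- `g` is not an `n`-th power over `E`, and the curve `wⁿ = g` over `E` is not rational
    (hw : ∀ w : AlgebraicClosure K, w ^ n = algebraMap K (AlgebraicClosure K) g →
      w ∉ Subfield.closure ({c | IsAlgebraic F c} ∪ algebraMap K (AlgebraicClosure K) '' K1) ∧
      NotRational F K (Subfield.closure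
        ({c | IsAlgebraic F c} ∪ (algebraMap K (AlgebraicClosure K) '' K1 ∪ {w}))))
    -- every Galois section is geometric
    (s : GaloisSection k K) : IsGeometric s :=
  family_geometric hF ht htop hK1 ht1 hn hg hy hg0 hgen hw s

/-- Illustration: ramified twists over a henselian field, for instance `k = F((t))`. -/
theorem henselian {F k K : Type u} [Field F] [CharZero F] [Field k] [Field K]
    [Algebra F k] [Algebra k K] [Algebra F K] [IsScalarTower F k K]
    (hF : ∃ S : Finset F, Subfield.closure (S : Set F) = ⊤)
    (hK : IsFunctionField k K)
    (M : Subfield (AlgebraicClosure K)) (hM : CurveOverE F K M) (hgenus : NotRational F K M)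
    (hT : TwistedForm k K M)
    -- `W` is the only valuation ring of `kbar` above a place of `k` over `F`
    (W : ValuationSubring (kbar k K)) (hW : IsPlaceOver F k W) (hD : ∀ τ : Gk k K, InDecomp W τ)
    -- the twist is ramified at `W`
    (hram : RamifiedAt W M)
    (s : GaloisSection k K) : IsGeometric s :=
  henselian_geometric hF hK M hM hgenus hT W hW hD hram s

end Pool.Agent.Results.MP_e66f84_ag.TwistedConstantCurves
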