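import Pool.Agent.Helper13.GC.D4
import Pool.Agent.Helper13.LT.F2

/-!
# The section conjecture for 100 percent of the twists of every cyclic cover

Let `k` be a finitely generated field of characteristic zero and transcendence degree at least `2`, and
`X` a curve over `k` with a faithful action of the group scheme `μ_n`, `n ≥ 2`, which is not rational over
`kbar`.  The quotient is a curve with function field `K₀ / k`, and the function field of `X` is `K₀(y)` with
`yⁿ = g ∈ K₀`.  The twists of `X` by the classes of `H¹(k, μ_n) = k* / k*ⁿ` are the curves `v yⁿ = g`.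

Let `t₁, …, t_r ∈ k`, `r ≥ 2`, be algebraically independent over `ℚ`, and `m ≥ 1`.  For all but
`C (2H + 1) ^ (N - 1)` of the `(2H + 1) ^ N` polynomials `v` of degree at most `m` in `r` variables with integral
coefficients of absolute value at most `H`, for all `n` and all `j` not divisible by `n`, every Galois
section of the twist `v(t)^j yⁿ = g` is geometric: it comes from a rational point.
-/

universe u

namespace Pool.Agent.Results.MP_e66f84_ag.TwistsOfCyclicCovers

open Polynomial Pool.Agent.Helper91.Sect Pool.Agent.SC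

/-- The exponents of the monomials of degree at most `m` in `r` variables. -/
abbrev Exponents (r m : ℕ) : Type := {p : Fin r → Fin (m + 1) // ∑ i, (p i : ℕ) ≤ m}

/-- The value at `t` of the polynomial with coefficients `a`. -/
noncomputable def value {k : Type u} [Field k] {r m : ℕ} (t : Fin r → k)
    (a : Exponents r m → ℤ) : k :=
  ∑ p : Exponents r m, (a p : k) * ∏ i, t i ^ (p.1 i : ℕ)

/-- `K₀ / k` is a function field of one variable. -/
def IsCurve (k K₀ : Type u) [Field k] [Field K₀] [Algebra k K₀] : Prop :=
  ∃ x : K₀, Transcendental k x ∧ FiniteDimensional (IntermediateField.adjoin k {x}) K₀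

/-- The curve over `k` with function field `K` is not rational over the algebraic closure of `k`. -/
def NotRationalCurve (k K : Type u) [Field k] [Field K] [Algebra k K] : Prop :=
  ∀ z : AlgebraicClosure K,
    Subfield.closure ({c | IsAlgebraic k c} ∪ Set.range (algebraMap K (AlgebraicClosure K))) ≠
      Subfield.closure ({c | IsAlgebraic k c} ∪ {z})

/-- The twists `v^j yⁿ = g` of the cyclic covers `yⁿ = g`, `n ≥ 1`, by the powers of `v` (`n` does not
divide `j`) satisfy the section conjecture: if `K ⊇ K₀` is the function field of such a curve and it is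
not rational over `kbar`, every Galois section of `K / k` is geometric. -/
def TwistsSatisfySC {k K₀ : Type u} [Field k] [Field K₀] [Algebra k K₀] (g : K₀) (v : k) : Prop :=
  ∀ n j : ℕ, 0 < n → ¬ n ∣ j → ∀ (K : Type u) [Field K] [Algebra k K] [Algebra K₀ K] [IsScalarTower k K₀ K]
    (y : K), IntermediateField.adjoin K₀ {y} = ⊤ →
    algebraMap k K (v ^ j) * y ^ n = algebraMap K₀ K g → NotRationalCurve k K →
    ∀ s : GaloisSection k K, IsGeometric s

theorem closure_alg (k K : Type u) [Field k] [Field K] [Algebra k K] (A : Set (AlgebraicClosure K)) :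
    Subfield.closure ({c | IsAlgebraic k c} ∪ A) =
      (IntermediateField.adjoin (kbar k K) A).toSubfield := by
  rw [← range_kbar]
  rfl

theorem not_rational {k K : Type u} [Field k] [Field K] [Algebra k K]
    (h : NotRationalCurve k K) (z : Pool.Agent.LT.MM k K) :
    IntermediateField.adjoin (kbar k K) {z} ≠ ⊤ := by
  intro hz
  apply h ((z : Pool.Agent.LT.UU k K) : AlgebraicClosure K)
  rw [closure_alg, closure_alg]
  congr 1
  have h1 : IntermediateField.adjoin (kbar k K) (Set.range (algebraMap K (AlgebraicClosure K))) =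
      (⊤ : IntermediateField (kbar k K) (Pool.Agent.LT.MM k K)).map
        ((Pool.Agent.LT.UU k K).val.comp (Pool.Agent.LT.MM k K).val) := by
    change KK k K = _
    ext w
    constructor
    · intro hw
      exact ⟨⟨⟨w, Pool.Agent.LT.KK_le_UU k K hw⟩,
        (IntermediateField.mem_restrict (Pool.Agent.LT.KK_le_UU k K) _).2 hw⟩, trivial, rfl⟩
    · rintro ⟨m, -, rfl⟩
      exact (IntermediateField.mem_restrict (Pool.Agent.LT.KK_le_UU k K) _).1 m.2
  rw [h1, ← hz, IntermediateField.adjoin_map, Set.image_singleton]
  rfl

/-- **The section conjecture for 100 percent of the twists.** -/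
theorem result {k K₀ : Type u} [Field k] [CharZero k] [Field K₀] [Algebra k K₀]
    -- `k` is finitely generated
    (hk : ∃ S : Finset k, Subfield.closure (S : Set k) = ⊤)
    {r : ℕ} (hr : 2 ≤ r) {t : Fin r → k} (ht : AlgebraicIndependent ℚ t)
    -- an arbitrary cyclic cover of an arbitrary curve
    (hK₀ : IsCurve k K₀) {g : K₀} (hg : g ≠ 0) {m : ℕ} (hm : 1 ≤ m) :
    ∃ C : ℕ, ∀ H : ℕ,
      {a : Exponents r m → ℤ | (∀ i, |a i| ≤ H) ∧ ¬ TwistsSatisfySC g (value t a)}.ncard ≤
        C * (2 * H + 1) ^ (Fintype.card (Exponents r m) - 1) := by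
  obtain ⟨r, rfl⟩ := Nat.exists_eq_add_of_le' hr
  obtain ⟨C, hC⟩ := Pool.Agent.GC.goodTwist_percent hk ht hK₀ hg hm
  refine ⟨C, fun H => (Set.ncard_le_ncard ?_ ?_).trans (hC H)⟩
  · rintro a ⟨ha, hbad⟩
    refine ⟨ha, fun hgood => hbad ?_⟩
    intro n j hn hj K _ _ _ _ y hgen heq hrat s
    exact hgood n j hn hj K y hgen heq (not_rational hrat) s
  · refine Set.Finite.subset (Finset.finite_toSet
      (Fintype.piFinset fun _ : Exponents (r + 2) m => Finset.Icc (-(H : ℤ)) H)) ?_
    rintro a ⟨ha, -⟩
    rw [Finset.mem_coe, Fintype.mem_piFinset]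
    intro i
    rw [Finset.mem_Icc]
    exact abs_le.1 (ha i)

end Pool.Agent.Results.MP_e66f84_ag.TwistsOfCyclicCovers
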